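import Pool.Agent.Y481.DR.Defs
import Pool.Agent.Y240.CG.PotZ

/-!
# The potential of the ring with the functions of the children (job DR-POTF)
-/

set_option autoImplicit false

namespace Pool.Agent.Y978.DR

open Finset Filter Topology Metric
open Pool.Agent.W711.HT hiding XX
open Pool.Agent.Y472
open Pool.Agent.Y837.CB
open Pool.Agent.Y304.CB
open Pool.Agent.Y481.DR
open scoped Real

section add

variable {s : ℂ → ℂ → ℂ → ℂ} {n : ℕ} {R₁ c B p₀ R₀ B₀ R : ℝ} {Y : ℕ → ℕ → ℂ → ℂ}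
  {F : ℕ → ℂ → ℂ}

lemma SrF_congr (s : ℂ → ℂ → ℂ → ℂ) (F : ℕ → ℂ → ℂ) {n : ℕ} {ψ ψ' : ℕ → ℂ}
    (h : ∀ i < n + 1, ψ i = ψ' i) : SrF s F n ψ = SrF s F n ψ' := by
  unfold SrF
  rw [Sr_congr s h]
  congr 1
  refine sum_congr rfl fun i hi => ?_
  rw [h i (by have := mem_range.1 hi; omega)]

/-- the derivative of the sum of the functions of the children -/
noncomputable def eF (F : ℕ → ℂ → ℂ) (n j : ℕ) (z : ℂ) : ℂ := if j < n then deriv (F j) z else 0

lemma F_diff {Y : ℕ → ℂ → ℂ} {F : ℂ → ℂ} (h : DG R₀ B₀ Y F) {z : ℂ} (hz : z ∈ Rc R₀ R₀) :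
    DifferentiableAt ℂ F z :=
  h.Fan.differentiableAt ((isOpen_Rc R₀ R₀).mem_nhds hz)

lemma F_diff2 {Y : ℕ → ℂ → ℂ} {F : ℂ → ℂ} (h : DG R₀ B₀ Y F) {z : ℂ} (hz : z ∈ Rc R₀ R₀) :
    DifferentiableAt ℂ (deriv F) z :=
  (h.Fan.deriv (isOpen_Rc R₀ R₀)).differentiableAt ((isOpen_Rc R₀ R₀).mem_nhds hz)

/-- Cauchy's estimate -/
lemma F_dbd {Y : ℕ → ℂ → ℂ} {F : ℂ → ℂ} (h : DG R₀ B₀ Y F) (hR₀ : 0 < R₀) {z : ℂ}
    (hz : z ∈ Rc (R₀ / 2) (R₀ / 2)) : ‖deriv F z‖ ≤ 4 * B₀ / R₀ := by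
  have hball : ∀ w ∈ closedBall z (R₀ / 4), w ∈ Rc R₀ R₀ := by
    intro w hw
    have hw' : ‖w - z‖ ≤ R₀ / 4 := by simpa [dist_eq_norm] using hw
    exact Rc_mono (by linarith) (Rc_add hz hw')
  have hdc : DiffContOnCl ℂ F (ball z (R₀ / 4)) := by
    apply DifferentiableOn.diffContOnCl
    rw [closure_ball _ (by positivity)]
    intro w hw
    exact (F_diff h (hball w hw)).differentiableWithinAt
  have key := Complex.norm_deriv_le_of_forall_mem_sphere_norm_le (C := B₀)
    (by positivity : (0:ℝ) < R₀ / 4) hdc (fun w hw =>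
      h.Fbd w (hball w (sphere_subset_closedBall hw)))
  refine key.trans (le_of_eq ?_)
  field_simp

/-- `F` is small near `0` -/
lemma F_small {Y : ℕ → ℂ → ℂ} {F : ℂ → ℂ} (h : DG R₀ B₀ Y F) (hR₀ : 0 < R₀) (hR : R ≤ R₀ / 4)
    {z : ℂ} (hz : z ∈ Rc R R) : ‖F z‖ ≤ 4 * B₀ / R₀ * (2 * R) := by
  have hn := Rc_norm hz
  have hin : ∀ w ∈ ball (0 : ℂ) (R₀ / 2), w ∈ Rc (R₀ / 2) (R₀ / 2) := by
    intro w hw
    rw [mem_ball_zero_iff] at hw
    exact ⟨(Complex.abs_re_le_norm w).trans_lt hw, (Complex.abs_im_le_norm w).trans_lt hw⟩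
  have hz' : z ∈ ball (0 : ℂ) (R₀ / 2) := by
    rw [mem_ball_zero_iff]
    linarith
  have h0 : (0 : ℂ) ∈ ball (0 : ℂ) (R₀ / 2) := by
    rw [mem_ball_zero_iff, norm_zero]
    positivity
  have key := (convex_ball (0 : ℂ) (R₀ / 2)).norm_image_sub_le_of_norm_deriv_le (𝕜 := ℂ)
    (f := F) (C := 4 * B₀ / R₀)
    (fun w hw => F_diff h (Rc_mono (by linarith) (hin w hw)))
    (fun w hw => F_dbd h hR₀ (hin w hw)) h0 hz'
  rw [h.F0, sub_zero, sub_zero] at key
  have hB : 0 ≤ 4 * B₀ / R₀ := (norm_nonneg _).trans (F_dbd h hR₀ (hin 0 h0))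
  exact key.trans (mul_le_mul_of_nonneg_left hn.le hB)

lemma SrF_der (P : PotE (n + 1) n R₁ c B p₀ (Sr s n) (Dr s n))
    (hF : ∀ j < n, DG R₀ B₀ (Y j) (F j)) (hR₁ : R ≤ R₁) (hR₀ : R ≤ R₀)
    {ψ : ℕ → ℂ} (hψ : ψ ∈ Bx (n + 1) R) {j : ℕ} (hj : j < n + 1) :
    HasDerivAt (fun w => SrF s F n (Function.update ψ j w)) (Dr s n j ψ + eF F n j (ψ j))
      (ψ j) := by
  have hψ₁ : ψ ∈ Bx (n + 1) R₁ := fun i hi => Rc_mono hR₁ (hψ i hi)
  have h1 := P.der ψ hψ₁ j hj
  have h2 : HasDerivAt (fun w => ∑ i ∈ range n, F i (Function.update ψ j w i))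
      (∑ i ∈ range n, if i = j then deriv (F j) (ψ j) else 0) (ψ j) := by
    apply HasDerivAt.fun_sum
    intro i hi
    have hi' := mem_range.1 hi
    by_cases e : i = j
    · subst e
      simp only [Function.update_self, if_true]
      exact (F_diff (hF i hi') (Rc_mono hR₀ (hψ i hj))).hasDerivAt
    · simp only [Function.update_of_ne e, if_neg e]
      exact hasDerivAt_const _ _
  have h3 : (∑ i ∈ range n, if i = j then deriv (F j) (ψ j) else 0) = eF F n j (ψ j) := by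
    unfold eF
    rw [sum_ite_eq' (range n) j (fun _ => deriv (F j) (ψ j))]
    simp only [mem_range]
  rw [h3] at h2
  exact h1.fun_add h2

lemma DrF_eq (P : PotE (n + 1) n R₁ c B p₀ (Sr s n) (Dr s n))
    (hF : ∀ j < n, DG R₀ B₀ (Y j) (F j)) (hR₁ : R ≤ R₁) (hR₀ : R ≤ R₀)
    {ψ : ℕ → ℂ} (hψ : ψ ∈ Bx (n + 1) R) {j : ℕ} (hj : j < n + 1) :
    DrF s F n j ψ = Dr s n j ψ + eF F n j (ψ j) :=
  (SrF_der P hF hR₁ hR₀ hψ hj).deriv

theorem potE_add (P : PotE (n + 1) n R₁ c B p₀ (Sr s n) (Dr s n)) (hR : 0 < R)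
    (hR₁ : R ≤ R₁) (h₀ : 0 < R₀) (hR₀ : R ≤ R₀ / 4) (hB₀ : 0 < B₀)
    (hsm : n * (4 * B₀ / R₀ * (2 * R)) ≤ p₀ / 2)
    (hF : ∀ j < n, DG R₀ B₀ (Y j) (F j)) :
    PotE (n + 1) n R c (B + n * B₀ + 4 * B₀ / R₀) (p₀ / 2) (SrF s F n) (DrF s F n) := by
  have hR₀' : R ≤ R₀ := by linarith
  have hBx : ∀ {ψ : ℕ → ℂ}, ψ ∈ Bx (n + 1) R → ψ ∈ Bx (n + 1) R₁ :=
    fun hψ i hi => Rc_mono hR₁ (hψ i hi)
  have hbx : bx (n + 1) R ⊆ bx (n + 1) R₁ := fun x hx i => Rc_mono hR₁ (hx i)
  have hex : ∀ (i : ℕ), DifferentiableOn ℂ (fun x : Fin (n + 1) → ℂ => ex (n + 1) x i)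
      (bx (n + 1) R) := by
    intro i
    unfold ex
    by_cases hi : i < n + 1
    · simp only [hi, dite_true]
      fun_prop
    · simp only [hi, dite_false]
      fun_prop
  have mex : ∀ {i : ℕ}, i < n + 1 → ∀ x ∈ bx (n + 1) R, ex (n + 1) x i ∈ Rc R R := by
    intro i hi x hx
    simp only [ex, hi, dite_true]
    exact hx ⟨i, hi⟩
  have mexB : ∀ x ∈ bx (n + 1) R, ex (n + 1) x ∈ Bx (n + 1) R := fun x hx i hi => mex hi x hx
  have hB := P.hB
  have hp := P.hp
  have hc := P.hc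
  have hnB : 0 ≤ (n : ℝ) * B₀ := by positivity
  have hq : 0 < 4 * B₀ / R₀ := by positivity
  refine
    { he := by omega
      hR := ⟨hR, hR₁.trans P.hR.2⟩
      hc := P.hc
      hB := by positivity
      hp := by positivity
      dep := ?_
      an := ?_
      dan := ?_
      der := ?_
      bd := ?_
      ev := ?_
      conc := ?_
      pos := ?_ }
  · -- dep
    intro ψ ψ' he
    refine ⟨SrF_congr s F he, fun j => ?_⟩
    unfold DrF
    by_cases hj : j < n + 1
    · rw [he j hj]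
      congr 1
      funext w
      apply SrF_congr
      intro i hi
      by_cases e : i = j
      · subst e; rw [Function.update_self, Function.update_self]
      · rw [Function.update_of_ne e, Function.update_of_ne e, he i hi]
    · have e1 : ∀ φ : ℕ → ℂ, (fun w => SrF s F n (Function.update φ j w)) =
          fun _ => SrF s F n φ := by
        intro φ
        funext w
        apply SrF_congr
        intro i hi
        rw [Function.update_of_ne (by omega)]
      rw [e1, e1]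
      simp
  · -- an
    unfold SrF
    refine (P.an.mono hbx).add ?_
    apply DifferentiableOn.fun_sum
    intro i hi
    have hi' := mem_range.1 hi
    intro x hx
    exact (F_diff (hF i hi') (Rc_mono hR₀' (mex (by omega) x hx))).comp_differentiableWithinAt
      (f := fun x : Fin (n + 1) → ℂ => ex (n + 1) x i) x (hex i x hx)
  · -- dan
    intro j hj
    have e : ∀ x ∈ bx (n + 1) R, DrF s F n j (ex (n + 1) x) =
        Dr s n j (ex (n + 1) x) + eF F n j (ex (n + 1) x j) := fun x hx =>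
      DrF_eq P hF hR₁ hR₀' (mexB x hx) hj
    refine DifferentiableOn.congr ?_ e
    refine ((P.dan j hj).mono hbx).add ?_
    unfold eF
    by_cases hjn : j < n
    · simp only [hjn, if_true]
      intro x hx
      exact (F_diff2 (hF j hjn) (Rc_mono hR₀' (mex hj x hx))).comp_differentiableWithinAt
        (f := fun x : Fin (n + 1) → ℂ => ex (n + 1) x j) x (hex j x hx)
    · simp only [hjn, if_false]
      exact differentiableOn_const _
  · -- der
    intro ψ hψ j hj
    rw [DrF_eq P hF hR₁ hR₀' hψ hj]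
    exact SrF_der P hF hR₁ hR₀' hψ hj
  · -- bd
    intro ψ hψ
    have h1 := P.bd ψ (hBx hψ)
    refine ⟨?_, fun j hj => ?_⟩
    · unfold SrF
      refine (norm_add_le _ _).trans ?_
      have h2 : ‖∑ j ∈ range n, F j (ψ j)‖ ≤ n * B₀ := by
        refine (norm_sum_le _ _).trans ?_
        calc ∑ j ∈ range n, ‖F j (ψ j)‖ ≤ ∑ j ∈ range n, B₀ := by
              refine sum_le_sum fun i hi => ?_
              have hi' := mem_range.1 hi
              exact (hF i hi').Fbd _ (Rc_mono hR₀' (hψ i (by omega)))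
          _ = n * B₀ := by rw [sum_const, card_range, nsmul_eq_mul]
      linarith [h1.1]
    · rw [DrF_eq P hF hR₁ hR₀' hψ hj]
      refine (norm_add_le _ _).trans ?_
      have h2 : ‖eF F n j (ψ j)‖ ≤ 4 * B₀ / R₀ := by
        unfold eF
        split_ifs with hjn
        · exact F_dbd (hF j hjn) h₀ (Rc_mono (by linarith) (hψ j hj))
        · rw [norm_zero]; exact hq.le
      linarith [h1.2 j hj]
  · -- ev
    intro ψ hψ j hj
    unfold SrF
    rw [P.ev ψ (hBx hψ) j hj]
    congr 1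
    refine sum_congr rfl fun i hi => ?_
    have hi' := mem_range.1 hi
    by_cases e : i = j
    · subst e
      rw [Function.update_self]
      exact (hF i hi').Fev _ (Rc_mono hR₀' (hψ i (by omega)))
    · rw [Function.update_of_ne e]
  · -- conc
    intro ψ hψ j hj
    have hc1 := P.conc ψ (hBx hψ) j hj
    have hne : deriv (fun w => Dr s n j (Function.update ψ j w)) (ψ j) ≠ 0 := by
      intro h0
      rw [h0] at hc1
      simp only [Complex.zero_re] at hc1
      linarith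
    have hd1 : DifferentiableAt ℂ (fun w => Dr s n j (Function.update ψ j w)) (ψ j) :=
      differentiableAt_of_deriv_ne_zero hne
    have hev : (fun w => DrF s F n j (Function.update ψ j w)) =ᶠ[𝓝 (ψ j)]
        fun w => Dr s n j (Function.update ψ j w) + eF F n j w := by
      filter_upwards [(isOpen_Rc R R).mem_nhds (hψ j hj)] with w hw
      rw [DrF_eq P hF hR₁ hR₀' (update_mem hψ hw) hj, Function.update_self]
    rw [hev.deriv_eq]
    by_cases hjn : j < n
    · have e1 : (fun w => Dr s n j (Function.update ψ j w) + eF F n j w) =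
          fun w => Dr s n j (Function.update ψ j w) + deriv (F j) w := by
        funext w
        simp only [eF, hjn, if_true]
      have hm := Rc_mono hR₀' (hψ j hj)
      rw [e1, deriv_fun_add hd1 (F_diff2 (hF j hjn) hm), Complex.add_re]
      have h3 := (hF j hjn).Fconc _ hm
      linarith
    · have e1 : (fun w => Dr s n j (Function.update ψ j w) + eF F n j w) =
          fun w => Dr s n j (Function.update ψ j w) := by
        funext w
        simp only [eF, hjn, if_false, add_zero]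
      rw [e1]
      exact hc1
  · -- pos
    intro ψ hψ
    have h1 := P.pos ψ (hBx hψ)
    have h2 : ‖∑ j ∈ range n, F j (ψ j)‖ ≤ n * (4 * B₀ / R₀ * (2 * R)) := by
      refine (norm_sum_le _ _).trans ?_
      calc ∑ j ∈ range n, ‖F j (ψ j)‖ ≤ ∑ j ∈ range n, (4 * B₀ / R₀ * (2 * R)) := by
            refine sum_le_sum fun i hi => ?_
            have hi' := mem_range.1 hi
            exact F_small (hF i hi') h₀ hR₀ (hψ i (by omega))
        _ = _ := by rw [sum_const, card_range, nsmul_eq_mul]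
    have h3 := (abs_le.1 (Complex.abs_re_le_norm (∑ j ∈ range n, F j (ψ j)))).1
    unfold SrF
    rw [Complex.add_re]
    linarith

end add

theorem potf : S_POTF := by
  intro χ₀ ρ₀ c C s dl hre h R₀ B₀ hR₀ hB₀ n hn
  obtain ⟨R₁, c', hR₁, hR₁ρ, hc', hpot⟩ := Pool.Agent.Y240.CG.potz χ₀ ρ₀ c C s dl hre h
  obtain ⟨B, hB, P⟩ := hpot n hn
  have hbet := Pool.Agent.Y481.bet_pos
  have hn0 : (0:ℝ) < n := by exact_mod_cast (by omega : 0 < n)
  set r : ℝ := bet * R₀ / (32 * n * B₀) with hr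
  have hr0 : 0 < r := by positivity
  set R : ℝ := min R₁ (min (R₀ / 4) r) with hRdef
  have h1 : R ≤ R₁ := min_le_left _ _
  have h2 : R ≤ R₀ / 4 := (min_le_right _ _).trans (min_le_left _ _)
  have h3 : R ≤ r := (min_le_right _ _).trans (min_le_right _ _)
  have hR : 0 < R := lt_min hR₁ (lt_min (by positivity) hr0)
  refine ⟨R, c', B + n * B₀ + 4 * B₀ / R₀, hR, h1.trans hR₁ρ, by linarith, hc', by positivity,
    fun Y F hF => ?_⟩
  have hsm : n * (4 * B₀ / R₀ * (2 * R)) ≤ bet / 2 / 2 := by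
    calc (n : ℝ) * (4 * B₀ / R₀ * (2 * R)) ≤ n * (4 * B₀ / R₀ * (2 * r)) := by gcongr
      _ = bet / 2 / 2 := by
          rw [hr]
          field_simp
          norm_num
  have key := potE_add P hR h1 hR₀ h2 hB₀ hsm hF
  have e : bet / 2 / 2 = bet / 4 := by ring
  rw [e] at key
  exact key

end Pool.Agent.Y978.DR
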